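import Pool.Agent.H354.BG.Stm

set_option autoImplicit false

/-! Project BG (helper354), part F: short relations with coefficients outside of `pZ U b`, by the
retractions. -/

namespace Pool.Agent.H618.BG.F

open Pool.Agent.H482R3.EB (gR Tame)
open Pool.Agent.H354.BG

variable (D : Dat)

/-- the block retraction kills the coefficients -/
lemma kill {U : Finset (Fin D.r)} {b c : Fin D.r} (hc : D.R b c = false) {h : D.A}
    (hh : h ∈ par D (pZ D U b)) : rho D {c} h = 1 := by
  refine rho_disj D ?_ hh
  rw [Finset.disjoint_singleton_left]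
  intro h1
  have h2 := ((mem_pZ D U b).mp h1).2.2
  rw [hc] at h2
  exact Bool.noConfusion h2

lemma notMem {U : Finset (Fin D.r)} {b c : Fin D.r} (hc : D.R b c = false) : c ∉ pZ D U b := by
  intro h1
  have h2 := ((mem_pZ D U b).mp h1).2.2
  rw [hc] at h2
  exact Bool.noConfusion h2

theorem t_F : S_F := by
  intro D U b hb hNS
  refine ⟨?_, ?_⟩
  · intro w w' h h' i j hw hRw hw' hRw' hh hh' hi he
    have h1 : gR D.m w ^ i * rho D {D.β w} (gR D.m w' ^ j) = 1 := by
      have h2 := congrArg (rho D {D.β w}) he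
      rw [map_mul, map_mul, rho_zpow_in D (Finset.mem_singleton_self _), kill D hRw hh,
        kill D hRw hh', mul_one] at h2
      exact h2
    have hβ : D.β w' = D.β w := by
      by_contra hne
      rw [rho_zpow_out D (fun h2 => hne (Finset.mem_singleton.mp h2)), mul_one] at h1
      exact hi (gR_zpow_eq_one D h1)
    rw [rho_zpow_in D (Finset.mem_singleton.mpr hβ)] at h1
    have hww : w = w' := by
      by_contra hne
      exact hi ((tame D).i2 w w' i j hne h1).1
    subst hww
    have hij : j = -i := by
      rw [← zpow_add] at h1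
      have := gR_zpow_eq_one D h1
      omega
    subst hij
    have hZ : D.β w ∉ pZ D U b := notMem D hRw
    have h3 : h = h' := by
      have h2 := congrArg (rho D (pZ D U b)) he
      rw [map_mul, map_mul, rho_zpow_out D hZ, rho_zpow_out D hZ, rho_of_par D hh,
        rho_of_par D hh', one_mul, mul_one] at h2
      exact h2
    subst h3
    refine ⟨rfl, rfl, (hNS (D.β w) hw hRw).1 w h i rfl hh hi ?_⟩
    rw [he, mul_inv_cancel]
  · intro w₁ w₂ w₃ h₁ h₂ h₃ i j d hw1 hR1 hw2 hR2 hw3 hR3 hh1 hh2 hh3 hi hj hd he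
    have key : ∀ c : Fin D.r, D.R b c = false →
        rho D {c} (gR D.m w₁ ^ i) * rho D {c} (gR D.m w₂ ^ j) * rho D {c} (gR D.m w₃ ^ d) = 1 := by
      intro c hc
      have h2 := congrArg (rho D {c}) he
      rw [map_mul, map_mul, map_mul, map_mul, map_mul, kill D hc hh1, kill D hc hh2,
        kill D hc hh3, mul_one, mul_one, mul_one, map_one] at h2
      exact h2
    have hout : ∀ {c : Fin D.r} {w : Fin D.n} (k : ℤ), D.β w ≠ c →
        rho D {c} (gR D.m w ^ k) = 1 := by
      intro c w k hne
      exact rho_zpow_out D (fun h2 => hne (Finset.mem_singleton.mp h2)) k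
    have hin : ∀ {c : Fin D.r} {w : Fin D.n} (k : ℤ), D.β w = c →
        rho D {c} (gR D.m w ^ k) = gR D.m w ^ k := by
      intro c w k hne
      exact rho_zpow_in D (Finset.mem_singleton.mpr hne) k
    have h12 : D.β w₂ = D.β w₁ := by
      by_contra hne
      by_cases h13 : D.β w₃ = D.β w₁
      · have h4 := key (D.β w₂) hR2
        rw [hout i (fun h => hne h.symm), hin j rfl, hout d (fun h => hne (h.symm.trans h13)),
          one_mul, mul_one] at h4
        exact hj (gR_zpow_eq_one D h4)
      · have h4 := key (D.β w₁) hR1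
        rw [hin i rfl, hout j hne, hout d h13, mul_one, mul_one] at h4
        exact hi (gR_zpow_eq_one D h4)
    have h13 : D.β w₃ = D.β w₁ := by
      by_contra hne
      have h4 := key (D.β w₃) hR3
      rw [hout i (fun h => hne h.symm), hout j (fun h => hne (h.symm.trans h12)), hin d rfl,
        one_mul, one_mul] at h4
      exact hd (gR_zpow_eq_one D h4)
    have h4 := key (D.β w₁) hR1
    rw [hin i rfl, hin j h12, hin d h13] at h4
    have e12 : w₁ = w₂ := by
      by_contra hne
      by_cases e23 : w₂ = w₃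
      · subst e23
        rw [mul_assoc, ← zpow_add] at h4
        exact hi ((tame D).i2 w₁ w₂ i (j + d) hne h4).1
      · by_cases e13 : w₁ = w₃
        · subst e13
          have h5 : gR D.m w₁ ^ (d + i) * gR D.m w₂ ^ j = 1 := by
            have h6 : gR D.m w₁ ^ (d + i) * gR D.m w₂ ^ j =
                gR D.m w₁ ^ d * (gR D.m w₁ ^ i * gR D.m w₂ ^ j * gR D.m w₁ ^ d) *
                  (gR D.m w₁ ^ d)⁻¹ := by
              rw [zpow_add]
              simp only [mul_assoc, mul_inv_cancel, mul_one]
            rw [h6, h4, mul_one, mul_inv_cancel]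
          exact hj ((tame D).i2 w₁ w₂ (d + i) j hne h5).2
        · exact hi ((tame D).i3 w₁ w₂ w₃ i j d hne e23 e13 h4).1
    subst e12
    have e13 : w₁ = w₃ := by
      by_contra hne
      rw [← zpow_add] at h4
      exact hd ((tame D).i2 w₁ w₃ (i + j) d hne h4).2
    subst e13
    exact ⟨rfl, rfl, (hNS (D.β w₁) hw1 hR1).2 w₁ h₁ h₂ h₃ i j d rfl hh1 hh2 hh3 hi hj hd he⟩

end Pool.Agent.H618.BG.F
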